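import Pool.Agent.Helper61.FN.GoalsC

/-!
# Project FN (MP_06d934_gt), packet FN-C4A
-/

set_option autoImplicit false

namespace Pool.Agent.Helper78.FN.C4A

open Finset WithZero Pool.Agent.Helper61.FN

section

variable {F k : Type} [Field F] [LinearOrder F] [IsStrictOrderedRing F] [Field k] [Algebra F k]
  {p q mu ep lam : F} {v : Fin 6 → ℤ} {M : ℤ} {ξ : Fin 6 → k}

theorem mon6 (x : Fin 6 → k) (m : Fin 6 → ℤ) :
    mon x m = x 0 ^ m 0 * x 1 ^ m 1 * x 2 ^ m 2 * x 3 ^ m 3 * x 4 ^ m 4 * x 5 ^ m 5 := by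
  simp [mon, Fin.prod_univ_succ]
  ring

/-- The terms of the equations `Nrm.ld0`. -/
noncomputable def TT (p q mu ep : F) (v : Fin 6 → ℤ) (ξ : Fin 6 → k) (j : Fin 20) : k :=
  if gr (mC j) v = 0 then algebraMap F k (cC p q mu ep j) * mon ξ (mC j) else 0

theorem ldC (h : NC p q mu ep lam v M ξ) :
    (-TT p q mu ep v ξ 0 + TT p q mu ep v ξ 6 - TT p q mu ep v ξ 7 - TT p q mu ep v ξ 8
      - TT p q mu ep v ξ 14 + TT p q mu ep v ξ 15 - TT p q mu ep v ξ 16 - TT p q mu ep v ξ 17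
      + TT p q mu ep v ξ 18 - TT p q mu ep v ξ 19 = 0) ∧
    (-TT p q mu ep v ξ 1 + TT p q mu ep v ξ 9 - TT p q mu ep v ξ 10 - TT p q mu ep v ξ 11
      - TT p q mu ep v ξ 14 - TT p q mu ep v ξ 15 + TT p q mu ep v ξ 16 - TT p q mu ep v ξ 17
      - TT p q mu ep v ξ 18 + TT p q mu ep v ξ 19 = 0) ∧
    (-TT p q mu ep v ξ 2 + TT p q mu ep v ξ 12 + TT p q mu ep v ξ 14 - TT p q mu ep v ξ 15
      - TT p q mu ep v ξ 16 = 0) ∧
    (-TT p q mu ep v ξ 3 + TT p q mu ep v ξ 13 + TT p q mu ep v ξ 17 - TT p q mu ep v ξ 18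
      - TT p q mu ep v ξ 19 = 0) ∧
    (-TT p q mu ep v ξ 4 - TT p q mu ep v ξ 6 + TT p q mu ep v ξ 7 - TT p q mu ep v ξ 8
      - TT p q mu ep v ξ 9 + TT p q mu ep v ξ 10 - TT p q mu ep v ξ 11
      - 2 * TT p q mu ep v ξ 12 = 0) ∧
    (-TT p q mu ep v ξ 5 - TT p q mu ep v ξ 6 - TT p q mu ep v ξ 7 + TT p q mu ep v ξ 8
      - TT p q mu ep v ξ 9 - TT p q mu ep v ξ 10 + TT p q mu ep v ξ 11
      - 2 * TT p q mu ep v ξ 13 = 0) := by
  have key (e : Fin 6) : ∑ j, (mC j e : k) * TT p q mu ep v ξ j = 0 := h.nrm.ld0 e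
  have k0 := key 0
  have k1 := key 1
  have k2 := key 2
  have k3 := key 3
  have k4 := key 4
  have k5 := key 5
  simp [Fin.sum_univ_succ, mC] at k0 k1 k2 k3 k4 k5
  refine ⟨?_, ?_, ?_, ?_, ?_, ?_⟩
  · linear_combination k0
  · linear_combination k1
  · linear_combination k2
  · linear_combination k3
  · linear_combination k4
  · linear_combination k5

theorem TT_zero {j : Fin 20} (h : gr (mC j) v ≠ 0) : TT p q mu ep v ξ j = 0 := if_neg h

theorem TT_pos {j : Fin 20} (h : gr (mC j) v = 0) :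
    TT p q mu ep v ξ j = algebraMap F k (cC p q mu ep j) * mon ξ (mC j) := if_pos h

/-- The algebra of the case (C4A). -/
theorem alg (hp : ParC p q mu ep) (a b c : k) (ha : a ≠ 0) (hb : b ≠ 0) (hc : c ≠ 0)
    (h1 : algebraMap F k (2 * (2 * p + 2 * q + mu + 2 * ep)) =
      algebraMap F k q * (a + a⁻¹ + b + b⁻¹) + algebraMap F k (p + ep) * c)
    (h2 : algebraMap F k (2 * (p + q + ep)) + algebraMap F k mu * c ^ 2 / 2 =
      algebraMap F k q * (a / b + b / a))
    (h3 : algebraMap F k mu * (a - a⁻¹) + algebraMap F k (p + ep) * (a / b - b / a) / c = 0)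
    (h4 : algebraMap F k mu * (b - b⁻¹) - algebraMap F k (p + ep) * (a / b - b / a) / c = 0) :
    False := by
  haveI : CharZero k := charZero_of_injective_algebraMap (algebraMap F k).injective
  obtain ⟨p1, q1, mu0, ep2, ph0, ch0⟩ := hp
  have hmu : algebraMap F k mu ≠ 0 := am_ne mu0.ne'
  obtain ⟨ph, hph⟩ : ∃ ph, ph = p + ep := ⟨_, rfl⟩
  rw [← hph] at h1 h3 h4 ph0
  have hphA : algebraMap F k ph ≠ 0 := am_ne ph0.ne'
  have e1 : 2 * (2 * p + 2 * q + mu + 2 * ep) = 2 * (2 * ph + 2 * q + mu) := by rw [hph]; ring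
  have e2 : 2 * (p + q + ep) = 2 * (ph + q) := by rw [hph]; ring
  rw [e1] at h1
  rw [e2] at h2
  have hq0 : 0 < q := by linarith
  have h5 : (a + b) * (a * b - 1) = 0 := by
    have h6 : algebraMap F k mu * ((a + b) * (a * b - 1)) = 0 := by
      have h7 : algebraMap F k mu * (a - a⁻¹ + (b - b⁻¹)) = 0 := by linear_combination h3 + h4
      have h8 : (a + b) * (a * b - 1) = (a * b) * (a - a⁻¹ + (b - b⁻¹)) := by field_simp; ring
      rw [h8]
      linear_combination (a * b) * h7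
    exact (mul_eq_zero.1 h6).resolve_left hmu
  rcases mul_eq_zero.1 h5 with h6 | h6
  · -- a + b = 0
    have hb' : b = -a := by linear_combination h6
    subst hb'
    have h7 : algebraMap F k ph * c = algebraMap F k (2 * (2 * ph + 2 * q + mu)) := by
      rw [h1, inv_neg]; ring
    have hc' : c = algebraMap F k (2 * (2 * ph + 2 * q + mu) / ph) := by
      rw [map_div₀, ← h7]; field_simp
    have h8 : a / -a + -a / a = -2 := by field_simp; norm_num
    rw [h8, hc'] at h2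
    have h9 : algebraMap F k (2 * (ph + q) + mu * (2 * (2 * ph + 2 * q + mu) / ph) ^ 2 / 2 + 2 * q)
        = 0 := by
      simp only [map_add, map_mul, map_div₀, map_pow, map_ofNat] at h2 ⊢
      linear_combination h2
    exact am_ne (by positivity) h9
  · -- a b = 1
    have hb' : b = a⁻¹ := eq_inv_of_mul_eq_one_right (by linear_combination h6)
    subst hb'
    have h7 : (a - a⁻¹) * (algebraMap F k mu * c + algebraMap F k ph * (a + a⁻¹)) = 0 := by
      have h8 : a / a⁻¹ - a⁻¹ / a = (a - a⁻¹) * (a + a⁻¹) := by field_simp; ring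
      rw [h8] at h3
      field_simp at h3 ⊢
      linear_combination h3
    rcases mul_eq_zero.1 h7 with h8 | h8
    · -- a = 1 / a
      have ha1 : a⁻¹ = a := by linear_combination -h8
      have ha2 : a * a = 1 := by
        have := mul_inv_cancel₀ ha
        rwa [ha1] at this
      simp only [ha1] at h1 h2
      have h9 : a / a + a / a = 2 := by rw [div_self ha]; norm_num
      rw [h9] at h2
      have key (s : F) (hs : a = algebraMap F k s) : False := by
        have hc' : c = algebraMap F k ((2 * (2 * ph + 2 * q + mu) - 4 * q * s) / ph) := by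
          rw [map_div₀, eq_div_iff hphA]
          simp only [map_add, map_sub, map_mul, map_ofNat] at h1 ⊢
          rw [hs] at h1
          linear_combination -h1
        have h10 : algebraMap F k (2 * ph + mu *
            ((2 * (2 * ph + 2 * q + mu) - 4 * q * s) / ph) ^ 2 / 2) = 0 := by
          rw [hc'] at h2
          simp only [map_add, map_sub, map_mul, map_div₀, map_pow, map_ofNat] at h2 ⊢
          linear_combination h2
        exact am_ne (by positivity) h10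
      have h11 : (a - 1) * (a + 1) = 0 := by linear_combination ha2
      rcases mul_eq_zero.1 h11 with h12 | h12
      · exact key 1 (by rw [map_one]; linear_combination h12)
      · exact key (-1) (by rw [map_neg, map_one]; linear_combination h12)
    · have hf : (a + a⁻¹) ^ 2 = a / a⁻¹ + a⁻¹ / a + 2 := by field_simp; ring
      obtain ⟨f, hf'⟩ : ∃ f, f = a + a⁻¹ := ⟨_, rfl⟩
      rw [← hf'] at hf h8
      have h2' : a / a⁻¹ + a⁻¹ / a = f ^ 2 - 2 := by linear_combination -hf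
      have h1' : a + a⁻¹ + a⁻¹ + a⁻¹⁻¹ = 2 * f := by rw [hf', inv_inv]; ring
      rw [h2'] at h2
      rw [h1'] at h1
      simp only [map_add, map_mul, map_ofNat] at h1 h2
      set P := algebraMap F k ph with hP
      set Q := algebraMap F k q with hQ
      set U := algebraMap F k mu with hU
      have g1 : c * (P ^ 2 - 2 * Q * U) = 2 * (2 * P + 2 * Q + U) * P := by
        linear_combination (-P) * h1 - (2 * Q) * h8
      have g2 : 4 * (P + Q + Q) * P ^ 2 = U * c ^ 2 * (2 * Q * U - P ^ 2) := by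
        linear_combination (2 * P ^ 2) * h2 + (2 * Q * (P * f - U * c)) * h8
      have g3 : P ^ 2 * (U * (2 * P + 2 * Q + U) ^ 2 - (P + 2 * Q) * (2 * Q * U - P ^ 2)) = 0 := by
        linear_combination (-(2 * Q * U - P ^ 2) / 4) * g2 -
          (U * (c * (P ^ 2 - 2 * Q * U) + 2 * (2 * P + 2 * Q + U) * P) / 4) * g1
      have g4 := (mul_eq_zero.1 g3).resolve_left (pow_ne_zero 2 hphA)
      have g5 : algebraMap F k (mu * (4 * ph ^ 2 + mu ^ 2 + 6 * ph * q + 4 * ph * mu + 4 * q * mu)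
          + ph ^ 3 + 2 * q * ph ^ 2) = 0 := by
        simp only [map_add, map_mul, map_pow, map_ofNat]
        linear_combination g4
      exact am_ne (by positivity) g5

end

theorem goalC4A : G_C4A := by
  intro F k _ _ _ _ _ p q mu ep lam v M ξ h v2 v4 v1 v5 v0 v3 v3'
  haveI : CharZero k := charZero_of_injective_algebraMap (algebraMap F k).injective
  obtain ⟨L0, L1, L2, -, L4, -⟩ := ldC h
  have n0 := h.nrm.ne 0
  have n1 := h.nrm.ne 1
  have n2 := h.nrm.ne 2
  have n4 := h.nrm.ne 4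
  have n5 := h.nrm.ne 5
  have z0 : TT p q mu ep v ξ 0 = 0 := TT_zero (by rw [gr6]; simp [mC]; omega)
  have z1 : TT p q mu ep v ξ 1 = 0 := TT_zero (by rw [gr6]; simp [mC]; omega)
  have z3 : TT p q mu ep v ξ 3 = 0 := TT_zero (by rw [gr6]; simp [mC]; omega)
  have z5 : TT p q mu ep v ξ 5 = 0 := TT_zero (by rw [gr6]; simp [mC]; omega)
  have z7 : TT p q mu ep v ξ 7 = 0 := TT_zero (by rw [gr6]; simp [mC]; omega)
  have z10 : TT p q mu ep v ξ 10 = 0 := TT_zero (by rw [gr6]; simp [mC]; omega)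
  have z13 : TT p q mu ep v ξ 13 = 0 := TT_zero (by rw [gr6]; simp [mC]; omega)
  have z14 : TT p q mu ep v ξ 14 = 0 := TT_zero (by rw [gr6]; simp [mC]; omega)
  have z17 : TT p q mu ep v ξ 17 = 0 := TT_zero (by rw [gr6]; simp [mC]; omega)
  have z18 : TT p q mu ep v ξ 18 = 0 := TT_zero (by rw [gr6]; simp [mC]; omega)
  have z19 : TT p q mu ep v ξ 19 = 0 := TT_zero (by rw [gr6]; simp [mC]; omega)
  have t2 := TT_pos (p := p) (q := q) (mu := mu) (ep := ep) (ξ := ξ) (v := v) (j := 2)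
    (by rw [gr6]; simp [mC]; try omega)
  have t4 := TT_pos (p := p) (q := q) (mu := mu) (ep := ep) (ξ := ξ) (v := v) (j := 4)
    (by rw [gr6]; simp [mC]; try omega)
  have t6 := TT_pos (p := p) (q := q) (mu := mu) (ep := ep) (ξ := ξ) (v := v) (j := 6)
    (by rw [gr6]; simp [mC]; try omega)
  have t8 := TT_pos (p := p) (q := q) (mu := mu) (ep := ep) (ξ := ξ) (v := v) (j := 8)
    (by rw [gr6]; simp [mC]; try omega)
  have t9 := TT_pos (p := p) (q := q) (mu := mu) (ep := ep) (ξ := ξ) (v := v) (j := 9)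
    (by rw [gr6]; simp [mC]; try omega)
  have t11 := TT_pos (p := p) (q := q) (mu := mu) (ep := ep) (ξ := ξ) (v := v) (j := 11)
    (by rw [gr6]; simp [mC]; try omega)
  have t12 := TT_pos (p := p) (q := q) (mu := mu) (ep := ep) (ξ := ξ) (v := v) (j := 12)
    (by rw [gr6]; simp [mC]; try omega)
  have t15 := TT_pos (p := p) (q := q) (mu := mu) (ep := ep) (ξ := ξ) (v := v) (j := 15)
    (by rw [gr6]; simp [mC]; try omega)
  have t16 := TT_pos (p := p) (q := q) (mu := mu) (ep := ep) (ξ := ξ) (v := v) (j := 16)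
    (by rw [gr6]; simp [mC]; try omega)
  simp only [mon6] at t2 t4 t6 t8 t9 t11 t12 t15 t16
  simp [mC, cC] at t2 t4 t6 t8 t9 t11 t12 t15 t16
  simp only [z0, z1, z3, z5, z7, z10, z13, z14, z17, z18, z19] at L0 L1 L2 L4
  obtain ⟨p1, q1, mu0, ep2, ph0, ch0⟩ := h.par
  have hP : algebraMap F k p ≠ 0 := am_ne (by positivity)
  have hQ : algebraMap F k q ≠ 0 := am_ne (by positivity)
  have hU : algebraMap F k mu ≠ 0 := am_ne mu0.ne'
  have hphA : algebraMap F k (p + ep) ≠ 0 := am_ne ph0.ne'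
  rw [map_add] at hphA
  obtain ⟨P, hP'⟩ : ∃ P, P = algebraMap F k p := ⟨_, rfl⟩
  obtain ⟨Q, hQ'⟩ : ∃ Q, Q = algebraMap F k q := ⟨_, rfl⟩
  obtain ⟨U, hU'⟩ : ∃ U, U = algebraMap F k mu := ⟨_, rfl⟩
  obtain ⟨E, hE'⟩ : ∃ E, E = algebraMap F k ep := ⟨_, rfl⟩
  have two : algebraMap F k 2 = 2 := map_ofNat _ 2
  rw [← hP'] at hP hphA t2 t4 t6 t8 t9 t11 t12 t15 t16
  rw [← hQ'] at hQ t2 t4 t6 t8 t9 t11 t15 t16
  rw [← hU'] at hU t4 t6 t8 t9 t11 t12
  rw [← hE'] at hphA t2 t4 t12 t15 t16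
  rw [two] at t2 t4 t12
  have u2 : TT p q mu ep v ξ 2 * ξ 2 = 2 * P * (P + E) * (P + Q + E) := by
    rw [t2]; field_simp
  have u12 : TT p q mu ep v ξ 12 * ξ 2 = -(P * (P + E) * U) / 2 * (ξ 2 / ξ 4) ^ 2 := by
    rw [t12]; field_simp
  have u15 : TT p q mu ep v ξ 15 * ξ 2 = -(P * Q * (P + E)) * ((ξ 0 / ξ 5) / (ξ 1 / ξ 5)) := by
    rw [t15]; field_simp
  have u16 : TT p q mu ep v ξ 16 * ξ 2 = -(P * Q * (P + E)) * ((ξ 1 / ξ 5) / (ξ 0 / ξ 5)) := by
    rw [t16]; field_simp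
  have w4 : TT p q mu ep v ξ 4 * ξ 4 = 2 * P * U * (2 * P + 2 * Q + U + 2 * E) := by
    rw [t4]; field_simp
  have w6 : TT p q mu ep v ξ 6 * ξ 4 = -(P * Q * U) * (ξ 0 / ξ 5) := by
    rw [t6]; field_simp
  have w8 : TT p q mu ep v ξ 8 * ξ 4 = -(P * Q * U) * (ξ 0 / ξ 5)⁻¹ := by
    rw [t8]; field_simp
  have w9 : TT p q mu ep v ξ 9 * ξ 4 = -(P * Q * U) * (ξ 1 / ξ 5) := by
    rw [t9]; field_simp
  have w11 : TT p q mu ep v ξ 11 * ξ 4 = -(P * Q * U) * (ξ 1 / ξ 5)⁻¹ := by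
    rw [t11]; field_simp
  have w12 : TT p q mu ep v ξ 12 * ξ 4 = -(P * (P + E) * U) / 2 * (ξ 2 / ξ 4) := by
    rw [t12]; field_simp
  have w15 : TT p q mu ep v ξ 15 * ξ 4 =
      -(P * Q * (P + E)) * ((ξ 0 / ξ 5) / (ξ 1 / ξ 5) / (ξ 2 / ξ 4)) := by
    rw [t15]; field_simp
  have w16 : TT p q mu ep v ξ 16 * ξ 4 =
      -(P * Q * (P + E)) * ((ξ 1 / ξ 5) / (ξ 0 / ξ 5) / (ξ 2 / ξ 4)) := by
    rw [t16]; field_simp
  clear t2 t4 t6 t8 t9 t11 t12 t15 t16
  refine alg (k := k) h.par (ξ 0 / ξ 5) (ξ 1 / ξ 5) (ξ 2 / ξ 4) (div_ne_zero n0 n5)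
    (div_ne_zero n1 n5) (div_ne_zero n2 n4) ?_ ?_ ?_ ?_
  · simp only [map_add, map_mul, map_ofNat, ← hP', ← hQ', ← hU', ← hE']
    refine mul_left_cancel₀ (mul_ne_zero hP hU) ?_
    linear_combination (-ξ 4) * L4 - w4 - w6 - w8 - w9 - w11 - 2 * w12
  · simp only [map_add, map_mul, map_ofNat, ← hP', ← hQ', ← hU', ← hE']
    refine mul_left_cancel₀ (mul_ne_zero hP hphA) ?_
    linear_combination (-ξ 2) * L2 - u2 + u12 - u15 - u16
  · simp only [map_add, map_mul, map_ofNat, ← hP', ← hQ', ← hU', ← hE']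
    refine (mul_eq_zero.1 ?_).resolve_left (mul_ne_zero hP hQ)
    linear_combination (-ξ 4) * L0 + w6 - w8 + w15 - w16
  · simp only [map_add, map_mul, map_ofNat, ← hP', ← hQ', ← hU', ← hE']
    refine (mul_eq_zero.1 ?_).resolve_left (mul_ne_zero hP hQ)
    linear_combination (-ξ 4) * L1 + w9 - w11 - w15 + w16

end Pool.Agent.Helper78.FN.C4A
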