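import Pool.Agent.Helper61.FN.Goals

/-!
# Project FN (MP_06d934_gt), packet FN-BET
-/

set_option autoImplicit false

namespace Pool.Agent.Helper78.FN.BET

open Finset WithZero Pool.Agent.Helper61.FN

section

variable {F K : Type} [Field F] [CharZero F] [Field K] [Algebra F K] {t : K}
  {R : Subalgebra F K} {v : Valuation K (WithZero (Multiplicative ℤ))} {D : Derivation F K K}

/-- The derivation preserves the polynomials in `t`. -/
theorem dAdj (hD : D t = t) {a : K} (ha : a ∈ Algebra.adjoin F {t}) :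
    D a ∈ Algebra.adjoin F {t} := by
  have ht : t ∈ Algebra.adjoin F {t} := Algebra.subset_adjoin rfl
  induction ha using Algebra.adjoin_induction with
  | mem x hx =>
    rw [Set.mem_singleton_iff.1 hx, hD]
    exact ht
  | algebraMap r =>
    rw [D.map_algebraMap]
    exact zero_mem _
  | add x y _ _ h1 h2 =>
    rw [map_add]
    exact add_mem h1 h2
  | mul x y hx hy h1 h2 =>
    rw [D.leibniz]
    exact add_mem (mul_mem hx h2) (mul_mem hy h1)

theorem bdR (hR : Ded F K t R) (hv : DVal F K t R v) (hD : D t = t) :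
    ∃ B : WithZero (Multiplicative ℤ), ∀ r ∈ R, v (D r) ≤ B := by
  classical
  obtain ⟨s, hs⟩ := hR.fin
  obtain ⟨B, hB⟩ := (s.image v ∪ s.image fun e ↦ v (D e)).exists_le
  have hB1 (e : K) (he : e ∈ s) : v e ≤ B := hB _ (mem_union_left _ (mem_image_of_mem _ he))
  have hB2 (e : K) (he : e ∈ s) : v (D e) ≤ B :=
    hB _ (mem_union_right _ (mem_image_of_mem (fun e ↦ v (D e)) he))
  have hsub : ∀ a ∈ Algebra.adjoin F {t}, v a ≤ 1 := fun a ha ↦
    hv.int a (Algebra.adjoin_le (Set.singleton_subset_iff.2 hR.mem) ha)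
  refine ⟨B, fun r hr ↦ ?_⟩
  have key : v r ≤ B ∧ v (D r) ≤ B := by
    have h1 := hs r hr
    clear hr
    induction h1 using Submodule.span_induction with
    | mem x hx => exact ⟨hB1 x hx, hB2 x hx⟩
    | zero => simp
    | add x y _ _ h1 h2 =>
      rw [map_add D]
      exact ⟨(v.map_add _ _).trans (max_le h1.1 h2.1), (v.map_add _ _).trans (max_le h1.2 h2.2)⟩
    | smul a x _ h1 =>
      have h2 : a • x = (a : K) * x := rfl
      have ha := hsub _ a.2
      have ha' := hsub _ (dAdj hD a.2)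
      rw [h2, D.leibniz, map_mul]
      refine ⟨mul_le_of_le_one_of_le ha h1.1, (v.map_add _ _).trans (max_le ?_ ?_)⟩
      · rw [smul_eq_mul, map_mul]
        exact mul_le_of_le_one_of_le ha h1.2
      · rw [smul_eq_mul, map_mul]
        exact mul_le_of_le_of_le_one h1.1 ha'
  exact key.2

theorem bdV (hR : Ded F K t R) (hv : DVal F K t R v) (hD : D t = t) :
    ∃ N : ℕ, ∀ y, v y ≤ 1 → v (D y) ≤ exp (N : ℤ) := by
  obtain ⟨B, hB⟩ := bdR hR hv hD
  refine ⟨(log B).toNat, fun y hy ↦ ?_⟩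
  obtain ⟨r, hr, s, hs, hs1, e⟩ := hv.loc y hy
  have h1 : s * D y = D r - y * D s := by
    rw [← e, D.leibniz, smul_eq_mul, smul_eq_mul]
    ring
  have h2 : v (D y) = v (D r - y * D s) := by
    rw [← h1, map_mul, hs1, one_mul]
  have h3 : v (D y) ≤ B := by
    rw [h2]
    refine (v.map_sub _ _).trans (max_le (hB r hr) ?_)
    rw [map_mul]
    exact mul_le_of_le_one_of_le hy (hB s hs)
  refine h3.trans (le_exp_of_log_le (Int.self_le_toNat _))

theorem vnat (hv : DVal F K t R v) {n : ℕ} (hn : n ≠ 0) : v (n : K) = 1 := by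
  have := hv.triv (n : F) (Nat.cast_ne_zero.2 hn)
  rwa [map_natCast] at this

/-- One step of the descent, for elements of positive valuation. -/
theorem step1 (ht : t ≠ 0) (hv : DVal F K t R v) (hD : D t = t) (n : ℕ)
    (h : ∀ y, v y ≤ 1 → v (D y) ≤ exp (n : ℤ)) (y : K) (hy : v y < 1) :
    v (D y) ≤ exp ((n : ℤ) - 1) := by
  rcases eq_or_ne y 0 with rfl | hy0
  · rw [map_zero, map_zero]
    exact zero_le'
  have ht1 := hv.vt
  have hvt : v t ≠ 0 := (Valuation.ne_zero_iff v).2 ht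
  have hvy : v y ≠ 0 := (Valuation.ne_zero_iff v).2 hy0
  have hlt : log (v t) < 0 := by rwa [← exp_zero, ← log_lt_iff_lt_exp hvt] at ht1
  have hly : log (v y) < 0 := by rwa [← exp_zero, ← log_lt_iff_lt_exp hvy] at hy
  obtain ⟨a, ha⟩ := Int.eq_ofNat_of_zero_le (a := -log (v y)) (by omega)
  obtain ⟨N, hN⟩ := Int.eq_ofNat_of_zero_le (a := -log (v t)) (by omega)
  have ha0 : a ≠ 0 := by rintro rfl; simp at ha; omega
  have hN0 : N ≠ 0 := by rintro rfl; simp at hN; omega
  have e1 : v y ^ N = v t ^ a := by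
    rw [← exp_log (pow_ne_zero N hvy), ← exp_log (pow_ne_zero a hvt), log_pow, log_pow]
    congr 1
    rw [nsmul_eq_mul, nsmul_eq_mul]
    have h1 : (a : ℤ) = -log (v y) := ha.symm
    have h2 : (N : ℤ) = -log (v t) := hN.symm
    rw [h1, h2]
    ring
  obtain ⟨w, hw⟩ : ∃ w, w = y ^ N / t ^ a := ⟨_, rfl⟩
  have hta : t ^ a ≠ 0 := pow_ne_zero _ ht
  have hw1 : w * t ^ a = y ^ N := by rw [hw]; field_simp
  have hvw : v w = 1 := by
    rw [hw, map_div₀, map_pow, map_pow, e1]
    exact div_self (pow_ne_zero _ hvt)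
  have e2 : w * (a * t ^ a) + t ^ a * D w = N * y ^ (N - 1) * D y := by
    have h1 := congrArg D hw1
    rw [D.leibniz, D.leibniz_pow, D.leibniz_pow, hD] at h1
    simp only [smul_eq_mul, nsmul_eq_mul] at h1
    have h2 : t ^ a = t ^ (a - 1) * t := by
      rw [← pow_succ, Nat.sub_add_cancel (Nat.one_le_iff_ne_zero.2 ha0)]
    linear_combination h1 + w * a * h2
  have e3 : N * w * D y = y * (D w + a * w) := by
    refine mul_left_cancel₀ hta ?_
    have h2 : y ^ N = y ^ (N - 1) * y := by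
      rw [← pow_succ, Nat.sub_add_cancel (Nat.one_le_iff_ne_zero.2 hN0)]
    linear_combination (-y) * e2 + (N * D y) * hw1 + (N * D y) * h2
  have e4 : v (D y) = v y * v (D w + a * w) := by
    rw [← map_mul, ← e3, map_mul, map_mul, vnat hv hN0, hvw, one_mul, one_mul]
  rw [e4]
  have h1 : v y ≤ exp (-1 : ℤ) := by
    rw [← log_le_iff_le_exp hvy]
    omega
  have h2 : v (D w + a * w) ≤ exp (n : ℤ) := by
    refine (v.map_add _ _).trans (max_le (h w hvw.le) ?_)
    rw [map_mul, hvw, vnat hv ha0, mul_one, ← exp_zero, exp_le_exp]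
    omega
  calc v y * v (D w + a * w) ≤ exp (-1 : ℤ) * exp (n : ℤ) := mul_le_mul' h1 h2
    _ = exp ((n : ℤ) - 1) := by rw [← exp_add, neg_add_eq_sub]

theorem step2 (ht : t ≠ 0) (hv : DVal F K t R v) (hD : D t = t) (n : ℕ)
    (h : ∀ y, v y ≤ 1 → v (D y) ≤ exp (n : ℤ)) (y : K) (hy : v y ≤ 1) :
    v (D y) ≤ exp ((n : ℤ) - 1) := by
  obtain ⟨g, h1, h2⟩ := hv.res y hy
  have h3 := step1 ht hv hD n h _ h1
  rwa [D.map_aeval, smul_eq_mul, map_mul, h2, one_mul] at h3

theorem desc (ht : t ≠ 0) (hv : DVal F K t R v) (hD : D t = t) (n : ℕ)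
    (h : ∀ y, v y ≤ 1 → v (D y) ≤ exp (n : ℤ)) : ∀ y, v y ≤ 1 → v (D y) ≤ exp (-1 : ℤ) := by
  induction n with
  | zero =>
    intro y hy
    have := step2 ht hv hD 0 h y hy
    simpa using this
  | succ n ih =>
    refine ih fun y hy ↦ ?_
    have := step2 ht hv hD (n + 1) h y hy
    rwa [Nat.cast_succ, add_sub_cancel_right] at this

end

theorem goalBET : G_BET := by
  intro F K _ _ _ _ t R v D ht hR hv hD y hy
  obtain ⟨N, hN⟩ := bdV hR hv hD
  refine (desc ht hv hD N hN y hy).trans_lt ?_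
  rw [← exp_zero, exp_lt_exp]
  norm_num

end Pool.Agent.Helper78.FN.BET
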