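import Pool.Agent.Helper61.FN.GoalsC

/-!
# Project FN (MP_06d934_gt), packet FN-C1C
-/

set_option autoImplicit false

namespace Pool.Agent.Helper78.FN.C1C

open Finset WithZero Pool.Agent.Helper61.FN

section

variable {F k : Type} [Field F] [LinearOrder F] [IsStrictOrderedRing F] [Field k] [Algebra F k]
  {p q mu ep : F}

theorem ordF (hp : ParC p q mu ep) (hpq : p < q) (d h L : F)
    (hL : p + q + 2 * ep < L)
    (e1 : h = (q - p) * d - L) (e2 : 0 < h * d)
    (e3 : (1 - d) ^ 2 * (p - h) * p = (p + ep) ^ 2)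
    (e4 : (1 + d) ^ 2 * (q - h) * q = (q + ep) ^ 2) : False := by
  obtain ⟨p1, q1, mu0, ep2, ph0, ch0⟩ := hp
  have p0 : 0 < p := by linarith
  have q0 : 0 < q := by linarith
  have t0 : 0 < q - p := by linarith
  rcases lt_trichotomy d 0 with hd | hd | hd
  · -- d < 0
    have hh : h < 0 := by
      by_contra hc
      have := mul_nonpos_of_nonneg_of_nonpos (not_lt.1 hc) hd.le
      linarith
    have h1 : (q - p) * d < 0 := mul_neg_of_pos_of_neg t0 hd
    have h2 : p + (p + q + 2 * ep) < p - h := by linarith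
    have h3 : 0 < p + (p + q + 2 * ep) := by linarith
    have h4 : 1 < (1 - d) ^ 2 := by nlinarith
    have h5 : p + (p + q + 2 * ep) < (1 - d) ^ 2 * (p - h) := by
      have : 1 * (p - h) < (1 - d) ^ 2 * (p - h) :=
        mul_lt_mul_of_pos_right h4 (by linarith)
      linarith
    have h6 : (p + (p + q + 2 * ep)) * p < (p + ep) ^ 2 := by
      rw [← e3]
      exact mul_lt_mul_of_pos_right h5 p0
    nlinarith
  · rw [hd, mul_zero] at e2
    exact lt_irrefl _ e2
  · -- 0 < d
    have hh : 0 < h := by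
      by_contra hc
      have := mul_nonpos_of_nonpos_of_nonneg (not_lt.1 hc) hd.le
      linarith
    have h1 : 0 < p - h := by
      by_contra hc
      have h2 : (1 - d) ^ 2 * (p - h) * p ≤ 0 :=
        mul_nonpos_of_nonpos_of_nonneg
          (mul_nonpos_of_nonneg_of_nonpos (sq_nonneg _) (not_lt.1 hc)) p0.le
      have h3 : 0 < (p + ep) ^ 2 := by positivity
      linarith
    have h2 : q - p < q - h := by linarith
    have h3 : 2 * (q + ep) < (q - p) * (1 + d) := by linarith
    have h4 : (2 * (q + ep)) ^ 2 < ((q - p) * (1 + d)) ^ 2 :=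
      pow_lt_pow_left₀ h3 (by linarith) two_ne_zero
    have h5 : (2 * (q + ep)) ^ 2 * ((q - p) * q) < ((q - p) * (1 + d)) ^ 2 * ((q - h) * q) := by
      have h6 : (q - p) * q < (q - h) * q := mul_lt_mul_of_pos_right h2 q0
      have h7 : 0 < (q - p) * q := mul_pos t0 q0
      exact mul_lt_mul'' h4 h6 (by positivity) h7.le
    have h6 : ((q - p) * (1 + d)) ^ 2 * ((q - h) * q) = (q - p) ^ 2 * (q + ep) ^ 2 := by
      rw [← e4]; ring
    rw [h6] at h5
    have h7 : 0 < (q - p) * (q + ep) ^ 2 := by positivity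
    have h8 : (q - p) * (q + ep) ^ 2 * (4 * q) < (q - p) * (q + ep) ^ 2 * (q - p) := by
      linarith
    have h9 := lt_of_mul_lt_mul_left h8 h7.le
    linarith

theorem caseLt (hS : SqF F) (hp : ParC p q mu ep) (hpq : p < q) (th t1 t2 : k)
    (hR : RelC1 p q mu ep th t1 t2) : False := by
  haveI : CharZero k := charZero_of_injective_algebraMap (algebraMap F k).injective
  obtain ⟨p1, q1, mu0, ep2, ph0, ch0⟩ := id hp
  obtain ⟨hth, h1, h2, r1, r2, r3, r4, r5⟩ := hR
  have p0 : 0 < p := by linarith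
  have q0 : 0 < q := by linarith
  have t0 : 0 < q - p := by linarith
  have hP : algebraMap F k p ≠ 0 := am_ne p0.ne'
  have hQ : algebraMap F k q ≠ 0 := am_ne q0.ne'
  have hPH : algebraMap F k (p + ep) ≠ 0 := am_ne ph0.ne'
  have hCH : algebraMap F k (q + ep) ≠ 0 := am_ne ch0.ne'
  obtain ⟨L, hL⟩ : ∃ L, L = p + q + 2 * ep + mu * (p + q) ^ 2 / (2 * p * q) := ⟨_, rfl⟩
  obtain ⟨H, hH⟩ : ∃ H, H = mu * (q - p) * (p + q) / (2 * p * q) := ⟨_, rfl⟩
  have hH0 : 0 < H := by rw [hH]; positivity
  obtain ⟨δ, hδ⟩ : ∃ δ : k, δ = algebraMap F k ((q - p) * (p + q)) / (th * algebraMap F k (p * q)) :=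
    ⟨_, rfl⟩
  obtain ⟨h, hh⟩ : ∃ h : k, h = algebraMap F k mu * th / 2 := ⟨_, rfl⟩
  have d1 : δ * th * (algebraMap F k p * algebraMap F k q) =
      algebraMap F k ((q - p) * (p + q)) := by
    rw [hδ, map_mul (algebraMap F k) p q]; field_simp
  have hδh : h * δ = algebraMap F k H := by
    rw [hh, hδ, hH]
    simp only [map_mul, map_div₀, map_add, map_sub, map_ofNat]
    field_simp
  -- the equations
  have s1 : algebraMap F k (p + ep) * t1 = algebraMap F k p * (1 - δ) := by
    refine mul_left_cancel₀ (mul_ne_zero hth hQ) ?_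
    simp only [map_mul, map_add, map_sub, map_pow] at r1 d1 ⊢
    linear_combination -r1 + d1
  have s2 : algebraMap F k (q + ep) * t2 = algebraMap F k q * (1 + δ) := by
    refine mul_left_cancel₀ (mul_ne_zero hth hP) ?_
    simp only [map_mul, map_add, map_sub, map_pow] at r2 d1 ⊢
    linear_combination -r2 - d1
  have s3 : t1 ^ 2 * (algebraMap F k p - h) = algebraMap F k p := by
    rw [map_mul, map_ofNat] at r3
    rw [hh]
    linear_combination r3 / 2
  have s4 : t2 ^ 2 * (algebraMap F k q - h) = algebraMap F k q := by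
    rw [map_mul, map_ofNat] at r4
    rw [hh]
    linear_combination r4 / 2
  have e3 : (1 - δ) ^ 2 * (algebraMap F k p - h) * algebraMap F k p =
      algebraMap F k ((p + ep) ^ 2) := by
    refine mul_left_cancel₀ hP ?_
    rw [map_pow]
    linear_combination (algebraMap F k (p + ep)) ^ 2 * s3 -
      (algebraMap F k p - h) * (algebraMap F k (p + ep) * t1 + algebraMap F k p * (1 - δ)) * s1
  have e4 : (1 + δ) ^ 2 * (algebraMap F k q - h) * algebraMap F k q =
      algebraMap F k ((q + ep) ^ 2) := by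
    refine mul_left_cancel₀ hQ ?_
    rw [map_pow]
    linear_combination (algebraMap F k (q + ep)) ^ 2 * s4 -
      (algebraMap F k q - h) * (algebraMap F k (q + ep) * t2 + algebraMap F k q * (1 + δ)) * s2
  have s5 : algebraMap F k (p + ep) * t1⁻¹ = (1 - δ) * (algebraMap F k p - h) := by
    refine mul_left_cancel₀ (mul_ne_zero hP h1) ?_
    have : t1 * t1⁻¹ = 1 := mul_inv_cancel₀ h1
    linear_combination (algebraMap F k p * algebraMap F k (p + ep)) * this -
      algebraMap F k (p + ep) * s3 + t1 * (algebraMap F k p - h) * s1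
  have s6 : algebraMap F k (q + ep) * t2⁻¹ = (1 + δ) * (algebraMap F k q - h) := by
    refine mul_left_cancel₀ (mul_ne_zero hQ h2) ?_
    have : t2 * t2⁻¹ = 1 := mul_inv_cancel₀ h2
    linear_combination (algebraMap F k q * algebraMap F k (q + ep)) * this -
      algebraMap F k (q + ep) * s4 + t2 * (algebraMap F k q - h) * s2
  have e1 : h = algebraMap F k (q - p) * δ - algebraMap F k L := by
    have h3 : algebraMap F k L = algebraMap F k ((2 * (2 * p + 2 * q + mu + 2 * ep) +
        mu * (p / q + q / p)) / 2 - (p + q)) := by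
      rw [hL]
      congr 1
      field_simp
      ring
    rw [map_sub (algebraMap F k) _ (p + q), map_div₀, r5, map_ofNat] at h3
    rw [h3]
    simp only [map_add, map_sub] at s1 s2 s5 s6 ⊢
    linear_combination (1 / 2 : k) * s1 + (1 / 2 : k) * s2 + (1 / 2 : k) * s5
      + (1 / 2 : k) * s6
  have hLp : p + q + 2 * ep < L := by
    have : 0 < mu * (p + q) ^ 2 / (2 * p * q) := by positivity
    linarith
  have hL0 : 0 < L := by linarith
  obtain ⟨b, hb⟩ := hS (L ^ 2 + 4 * (q - p) * H) (by positivity)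
  have h7 : (2 * algebraMap F k (q - p) * δ - algebraMap F k L - algebraMap F k b) *
      (2 * algebraMap F k (q - p) * δ - algebraMap F k L + algebraMap F k b) = 0 := by
    have hb' : algebraMap F k b * algebraMap F k b =
        algebraMap F k L ^ 2 + 4 * algebraMap F k (q - p) * algebraMap F k H := by
      rw [← map_mul, hb]
      simp only [map_add, map_mul, map_pow, map_ofNat]
    rw [e1] at hδh
    linear_combination -hb' + 4 * algebraMap F k (q - p) * hδh
  have hT : algebraMap F k (q - p) ≠ 0 := am_ne t0.ne'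
  have key (b' : F) (h8 : 2 * algebraMap F k (q - p) * δ = algebraMap F k (L + b')) : False := by
    have h9 : δ = algebraMap F k ((L + b') / (2 * (q - p))) := by
      rw [map_div₀, eq_div_iff (am_ne (by positivity)), ← h8, map_mul, map_ofNat]
      ring
    obtain ⟨d, hd⟩ : ∃ d, d = (L + b') / (2 * (q - p)) := ⟨_, rfl⟩
    rw [← hd] at h9
    have h10 : h = algebraMap F k ((q - p) * d - L) := by
      rw [e1, h9]
      simp only [map_sub, map_mul]
    obtain ⟨h', hh'⟩ : ∃ h', h' = (q - p) * d - L := ⟨_, rfl⟩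
    rw [← hh'] at h10
    have inj := (algebraMap F k).injective
    refine ordF hp hpq d h' L hLp hh' ?_ ?_ ?_
    · have : h' * d = H := inj (by rw [map_mul, ← h10, ← h9, hδh])
      rw [this]
      exact hH0
    · apply inj
      rw [← e3, h9, h10]
      simp only [map_mul, map_sub, map_pow, map_one]
    · apply inj
      rw [← e4, h9, h10]
      simp only [map_mul, map_sub, map_add, map_pow, map_one]
  rcases mul_eq_zero.1 h7 with h8 | h8
  · exact key b (by rw [map_add]; linear_combination h8)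
  · exact key (-b) (by rw [map_add, map_neg]; linear_combination h8)

theorem caseEq (hp : ParC p q mu ep) (hpq : p = q) (th t1 t2 : k)
    (hR : RelC1 p q mu ep th t1 t2) : False := by
  haveI : CharZero k := charZero_of_injective_algebraMap (algebraMap F k).injective
  obtain ⟨p1, q1, mu0, ep2, ph0, ch0⟩ := hp
  subst hpq
  obtain ⟨hth, h1, h2, r1, r2, r3, r4, r5⟩ := hR
  have p0 : 0 < p := by linarith
  have hP : algebraMap F k p ≠ 0 := am_ne p0.ne'
  have hPH : algebraMap F k (p + ep) ≠ 0 := am_ne ph0.ne'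
  rw [sub_self, map_zero] at r1 r2
  have s (t : k) (r : th * algebraMap F k p * (algebraMap F k p - algebraMap F k (p + ep) * t) = 0) :
      t = algebraMap F k (p / (p + ep)) := by
    have := (mul_eq_zero.1 r).resolve_left (mul_ne_zero hth hP)
    rw [map_div₀, eq_div_iff hPH]
    linear_combination -this
  rw [s t1 r1, s t2 r2, ← map_inv₀, ← map_add, ← map_mul, ← map_add] at r5
  have r6 := (algebraMap F k).injective r5
  have ph : p + ep ≠ 0 := ph0.ne'
  have pn : p ≠ 0 := p0.ne'
  rw [inv_div, div_self pn] at r6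
  have r7 : (2 * (2 * p + 2 * p + mu + 2 * ep) + mu * (1 + 1)) * p =
      2 * (p * p + (p + ep) ^ 2) := by
    rw [r6]; field_simp; ring
  nlinarith [mul_pos p0 mu0]

theorem RelC1.symm {th t1 t2 : k} (hR : RelC1 p q mu ep th t1 t2) :
    RelC1 q p mu ep th t2 t1 := by
  obtain ⟨hth, h1, h2, r1, r2, r3, r4, r5⟩ := hR
  refine ⟨hth, h2, h1, r2, r1, r4, r3, ?_⟩
  have : 2 * (2 * q + 2 * p + mu + 2 * ep) + mu * (q / p + p / q) =
      2 * (2 * p + 2 * q + mu + 2 * ep) + mu * (p / q + q / p) := by ring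
  rw [this, r5]
  ring

end

theorem goalC1C : G_C1C := by
  intro F k _ _ _ _ _ hS p q mu ep hp th t1 t2 hR
  rcases lt_trichotomy p q with h | h | h
  · exact caseLt hS hp h th t1 t2 hR
  · exact caseEq hp h th t1 t2 hR
  · obtain ⟨p1, q1, mu0, ep2, ph0, ch0⟩ := hp
    exact caseLt hS ⟨q1, p1, mu0, ep2, ch0, ph0⟩ h th t2 t1 (RelC1.symm hR)

end Pool.Agent.Helper78.FN.C1C
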